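import Mathlib
import Pool.Agent.MP_ad85d3_an.ffg.TenM
import Pool.Agent.MP_ad85d3_an.ffg.Trf
import Pool.Agent.MP_ad85d3_an.ffg.Rep
import Pool.Agent.MP_ad85d3_an.ffg.Tools

namespace Pool.Agent.Results.MP_ad85d3_an.Counterexample

open Pool.Agent.MP_ad85d3_an Pool.Agent.MP_ad85d3_an.Ffg

universe v

/-- The negated form of the problem: separable II₁ factors whose ultrapowers have isomorphic tensor
products although the factors are not elementarily equivalent up to permutation. -/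
theorem result : ∃ (H : Type) (_ : NormedAddCommGroup H) (_ : InnerProductSpace ℂ H)
    (_ : CompleteSpace H) (_ : TopologicalSpace.SeparableSpace H) (N₁ N₂ M₁ M₂ : St.TwoOne H),
    (∀ U : Ultrafilter ℕ, St.TensorIso U N₁ N₂ M₁ M₂) ∧
      ¬ (St.ElEq.{0, v} N₁ M₁ ∧ St.ElEq.{0, v} N₂ M₂) ∧
      ¬ (St.ElEq.{0, v} N₁ M₂ ∧ St.ElEq.{0, v} N₂ M₁) := by
  obtain ⟨H, _, _, _, _, N₀, N₃, N₉, f, g, a, b, c⟩ := tower_of gap_stmt stab_stmt pauli_stmt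
    grp_stmt gh_stmt rep_stmt (seq_stmt beta_stmt) sep_stmt (kap_stmt beta_stmt) fac_stmt
    (trf_stmt beta_stmt nm_stmt (tru_stmt nm_stmt))
  refine ⟨H, _, _, _, ‹_›, N₃, N₃, N₀, N₉, fun U => ?_, fun h => c h.1, fun h => c h.2⟩
  obtain ⟨L₃, _, _, _, ⟨n⟩⟩ := Br.exists_rep N₃ U
  obtain ⟨L₀, _, _, _, ⟨m₁⟩⟩ := Br.exists_rep N₀ U
  obtain ⟨L₉, _, _, _, ⟨m₂⟩⟩ := Br.exists_rep N₉ U
  exact ⟨L₃, _, _, _, L₃, _, _, _, L₀, _, _, _, L₉, _, _, _, n, n, m₁, m₂,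
    ⟨ten_stmt H H L₃ L₃ L₀ L₉ N₃ N₀ N₉ N₃ g f U n n m₁ m₂ a b⟩⟩

end Pool.Agent.Results.MP_ad85d3_an.Counterexample
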