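import Mathlib
import Pool.Agent.MP_ad85d3_an.TrA
import Pool.Agent.MP_ad85d3_an.TrB
import Pool.Agent.MP_ad85d3_an.StdK
import Pool.Agent.MP_ad85d3_an.UltA
import Pool.Agent.MP_ad85d3_an.End
import Pool.Agent.MP_ad85d3_an.Avg

namespace Pool.Agent.Results.MP_ad85d3_an.UniquePrimeUltra

open Pool.Agent.MP_ad85d3_an

universe u

/-- The ultrapower exists. -/
theorem ultraRep_exists {H : Type u} [NormedAddCommGroup H] [InnerProductSpace ℂ H]
    [CompleteSpace H] (N : St.TwoOne H) (U : Ultrafilter ℕ) :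
    ∃ (L : Type u) (_ : NormedAddCommGroup L) (_ : InnerProductSpace ℂ L) (_ : CompleteSpace L),
      Nonempty (St.UltraRep L U N) :=
  Br.exists_rep N U

/-- Unique prime factorisation, up to amplification, for tensor products of two ultrapowers of
II₁ factors. -/
theorem result {H₁ H₂ K₁ K₂ L₁ L₂ L₃ L₄ : Type u}
    [NormedAddCommGroup H₁] [InnerProductSpace ℂ H₁] [CompleteSpace H₁]
    [NormedAddCommGroup H₂] [InnerProductSpace ℂ H₂] [CompleteSpace H₂]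
    [NormedAddCommGroup K₁] [InnerProductSpace ℂ K₁] [CompleteSpace K₁]
    [NormedAddCommGroup K₂] [InnerProductSpace ℂ K₂] [CompleteSpace K₂]
    [NormedAddCommGroup L₁] [InnerProductSpace ℂ L₁] [CompleteSpace L₁]
    [NormedAddCommGroup L₂] [InnerProductSpace ℂ L₂] [CompleteSpace L₂]
    [NormedAddCommGroup L₃] [InnerProductSpace ℂ L₃] [CompleteSpace L₃]
    [NormedAddCommGroup L₄] [InnerProductSpace ℂ L₄] [CompleteSpace L₄]
    (N₁ : St.TwoOne H₁) (N₂ : St.TwoOne H₂) (M₁ : St.TwoOne K₁) (M₂ : St.TwoOne K₂)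
    (U : Ultrafilter ℕ) (hU : (U : Filter ℕ) ≤ Filter.cofinite)
    (n₁ : St.UltraRep L₁ U N₁) (n₂ : St.UltraRep L₂ U N₂)
    (m₁ : St.UltraRep L₃ U M₁) (m₂ : St.UltraRep L₄ U M₂)
    (h : St.StarIso {T | St.MemTensor (n₁.alg 1) (n₂.alg 1) T}
      {T | St.MemTensor (m₁.alg 1) (m₂.alg 1) T}) :
    ∃ t : ℝ, 0 < t ∧ t ≤ 1 ∧
      ((St.AmpIso n₁ m₁ t ∧ St.AmpIso m₂ n₂ t) ∨ (St.AmpIso m₁ n₁ t ∧ St.AmpIso n₂ m₂ t) ∨
        (St.AmpIso n₁ m₂ t ∧ St.AmpIso m₁ n₂ t) ∨ (St.AmpIso m₂ n₁ t ∧ St.AmpIso n₂ m₁ t)) :=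
  have hA := genA_stmt.{u}
  have hB := genB_stmt hA
  have hT := trA_stmt hA hB
  have hT' := trB_stmt hA hT
  have hS := std_stmt hB
  have hC := tc_stmt hS
  Br.main hT hT' hC (thA_stmt hA hT hC) (thB_stmt hT hC) frame_stmt (avg_stmt hB)
    (int_stmt hA hB hT hS (graph_stmt hS)) (end_stmt hA hT hC (prime_stmt hT hT' hC))
    (amp_stmt hT) (ultA_stmt hS) (ultB_stmt hA hB hT hT') hU n₁ n₂ m₁ m₂ h

end Pool.Agent.Results.MP_ad85d3_an.UniquePrimeUltra
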